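import Pool.Agent.Y723.Z8.Stm
import Pool.Agent.W605.RT.PAR4
import Pool.Agent.W261.RT.Iso

set_option autoImplicit false

/-!
# Z8-PAR: parametrisation of the curves with a subgroup `Z/2 × Z/8` (helper87)

After the proof for `Z/2 × Z/4` of helper605. The new point: a point of order 8 gives the three
squares `m n`, `m (m + n)`, `n (m + n)`, where the differences of the roots are `m ^ 2` and `n ^ 2`;
hence `m = g u ^ 2`, `n = g v ^ 2` and `u ^ 2 + v ^ 2` is a square.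
-/

namespace Pool.Agent.Y87.Z8

open Finset Pool.Agent.W262.RK Pool.Agent.W307.RT WeierstrassCurve.Affine
open Pool.Agent.W605.RT (sh_eq sh_negY two_tors int_root int_sqrt root_sq scale_one)

/-- the coordinates of the double of a point -/
theorem dbl {A B : ℤ} {P : (Sh A B).toAffine.Point} {x' y' : ℚ}
    {h' : (Sh A B).toAffine.Nonsingular x' y'} (hPP : P + P = Point.some x' y' h') :
    ∃ (x y : ℚ) (h : (Sh A B).toAffine.Nonsingular x y), P = Point.some x y h ∧ y ≠ 0 ∧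
      y ^ 2 = x ^ 3 + A * x + B ∧ x' = ((3 * x ^ 2 + A) / (2 * y)) ^ 2 - 2 * x := by
  rcases P with _ | ⟨x, y, hxy⟩
  · exfalso
    have h1 : (Point.zero : (Sh A B).toAffine.Point) + Point.zero = 0 := add_zero _
    rw [h1] at hPP
    exact Point.some_ne_zero _ hPP.symm
  · have hxy' := sh_eq.mp hxy.1
    by_cases hy : y = (Sh A B).toAffine.negY x y
    · exfalso
      rw [Point.add_self_of_Y_eq hy] at hPP
      exact Point.some_ne_zero _ hPP.symm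
    · rw [Point.add_self_of_Y_ne hy] at hPP
      have hX := (Point.some.inj hPP).1
      rw [sh_negY] at hy
      have hy0 : y ≠ 0 := by
        intro h0
        apply hy
        rw [h0]; simp
      refine ⟨x, y, hxy, rfl, hy0, hxy', ?_⟩
      rw [← hX, WeierstrassCurve.Affine.addX,
        WeierstrassCurve.Affine.slope_of_Y_ne rfl (by rwa [sh_negY]), sh_negY]
      simp only [Sh]
      ring

theorem eight_tors {A B : ℤ} {P Q : (Sh A B).toAffine.Point} (hP : addOrderOf P = 8)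
    (hQ : addOrderOf Q = 2) (hPQ : Q ∉ AddSubgroup.zmultiples P) :
    ∃ x1 y1 x y e1 e2 : ℚ, y1 ≠ 0 ∧ y1 ^ 2 = x1 ^ 3 + A * x1 + B ∧
      x = ((3 * x1 ^ 2 + A) / (2 * y1)) ^ 2 - 2 * x1 ∧
      y ≠ 0 ∧ y ^ 2 = x ^ 3 + A * x + B ∧ e1 ^ 3 + A * e1 + B = 0 ∧
      e2 ^ 3 + A * e2 + B = 0 ∧ e1 ≠ e2 ∧ e1 = ((3 * x ^ 2 + A) / (2 * y)) ^ 2 - 2 * x := by
  have h4 : addOrderOf ((P + P) + (P + P)) = 2 := by
    have h : (P + P) + (P + P) = 4 • P := by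
      rw [← two_nsmul, ← two_nsmul, ← mul_nsmul]
    rw [h, addOrderOf_nsmul' P four_ne_zero, hP]
    norm_num
  obtain ⟨e1, h1, hPP⟩ := two_tors h4
  obtain ⟨e2, h2', hQ'⟩ := two_tors hQ
  have hne : e1 ≠ e2 := by
    intro h
    subst h
    apply hPQ
    rw [hQ', ← hPP]
    have h : (P + P) + (P + P) = 4 • P := by
      rw [← two_nsmul, ← two_nsmul, ← mul_nsmul]
    rw [h]
    exact AddSubgroup.nsmul_mem_zmultiples P 4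
  have r1 := sh_eq.mp h1.1
  have r2 := sh_eq.mp h2'.1
  obtain ⟨x, y, h, hxy, hy0, hE, hX⟩ := dbl hPP
  obtain ⟨x1, y1, -, -, hy1, hE1, hX1⟩ := dbl hxy
  exact ⟨x1, y1, x, y, e1, e2, hy1, hE1, hX1, hy0, hE, by linarith, by linarith, hne, hX⟩

/-- number theory -/
theorem nt {m n r1 r2 : ℤ} (hm : 0 < m) (hn : 0 < n) (h1 : m * n = r1 ^ 2)
    (h2 : m * (m + n) = r2 ^ 2) : ∃ g a b : ℤ, 0 < g ∧ IsCoprime a b ∧
      ((m = g * (2 * a * b) ^ 2 ∧ n = g * (a ^ 2 - b ^ 2) ^ 2) ∨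
        (m = g * (a ^ 2 - b ^ 2) ^ 2 ∧ n = g * (2 * a * b) ^ 2)) := by
  have hg0 : 0 < Int.gcd m n := Int.gcd_pos_of_ne_zero_left _ hm.ne'
  obtain ⟨a0, b0, hab, ha, hb⟩ := Int.exists_gcd_one hg0
  set g : ℤ := (Int.gcd m n : ℤ) with hg
  have hgpos : 0 < g := by rw [hg]; exact_mod_cast hg0
  have ha0 : 0 < a0 := by
    rw [ha] at hm
    exact pos_of_mul_pos_left hm hgpos.le
  have hb0 : 0 < b0 := by
    rw [hb] at hn
    exact pos_of_mul_pos_left hn hgpos.le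
  -- `a0 b0` is a square
  have e1 : g ^ 2 * (a0 * b0) = r1 ^ 2 := by rw [← h1, ha, hb]; ring
  have d1 : g ∣ r1 := by
    have : g ^ 2 ∣ r1 ^ 2 := ⟨_, e1.symm⟩
    exact (Int.pow_dvd_pow_iff two_ne_zero).1 this
  obtain ⟨r, hr⟩ := d1
  have e2 : a0 * b0 = r ^ 2 := by
    have : g ^ 2 * (a0 * b0) = g ^ 2 * r ^ 2 := by rw [e1, hr]; ring
    exact mul_left_cancel₀ (pow_ne_zero 2 hgpos.ne') this
  obtain ⟨u, hu⟩ := Int.sq_of_gcd_eq_one hab e2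
  have hu' : a0 = u ^ 2 := by
    rcases hu with h | h
    · exact h
    · exfalso
      have := sq_nonneg u
      omega
  have hab' : Int.gcd b0 a0 = 1 := by rw [Int.gcd_comm]; exact hab
  obtain ⟨v, hv⟩ := Int.sq_of_gcd_eq_one hab' (by rw [mul_comm]; exact e2)
  have hv' : b0 = v ^ 2 := by
    rcases hv with h | h
    · exact h
    · exfalso
      have := sq_nonneg v
      omega
  have hu0 : u ≠ 0 := by
    rintro rfl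
    simp at hu'
    omega
  -- `u ^ 2 + v ^ 2` is a square
  have e3 : (g * u) ^ 2 * (u ^ 2 + v ^ 2) = r2 ^ 2 := by
    rw [← h2, ha, hb, hu', hv']; ring
  have d2 : g * u ∣ r2 := by
    have : (g * u) ^ 2 ∣ r2 ^ 2 := ⟨_, e3.symm⟩
    exact (Int.pow_dvd_pow_iff two_ne_zero).1 this
  obtain ⟨w, hw⟩ := d2
  have hgu : (g * u) ^ 2 ≠ 0 := pow_ne_zero 2 (mul_ne_zero hgpos.ne' hu0)
  have e4 : u ^ 2 + v ^ 2 = w ^ 2 := by
    have : (g * u) ^ 2 * (u ^ 2 + v ^ 2) = (g * u) ^ 2 * w ^ 2 := by rw [e3, hw]; ring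
    exact mul_left_cancel₀ hgu this
  have hpt : PythagoreanTriple u v w := by
    unfold PythagoreanTriple
    linear_combination e4
  have hco : Int.gcd u v = 1 := by
    rw [← Int.isCoprime_iff_gcd_eq_one]
    have h3 : IsCoprime (u ^ 2) (v ^ 2) := by
      rw [← hu', ← hv']
      exact Int.isCoprime_iff_gcd_eq_one.mpr hab
    exact (IsCoprime.pow_iff two_pos two_pos).1 h3
  obtain ⟨a, b, hc, -, hgab, -⟩ := PythagoreanTriple.coprime_classification.mp ⟨hpt, hco⟩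
  refine ⟨g, a, b, hgpos, Int.isCoprime_iff_gcd_eq_one.mpr hgab, ?_⟩
  rcases hc with ⟨h3, h4⟩ | ⟨h3, h4⟩
  · right
    constructor
    · rw [ha, hu', h3]; ring
    · rw [hb, hv', h4]; ring
  · left
    constructor
    · rw [ha, hu', h3]; ring
    · rw [hb, hv', h4]; ring

/-- the relation between a curve and its parameters -/
def Rel8 (c ab : ℤ × ℤ) : Prop := ∃ g e : ℤ, 0 < g ∧ IsCoprime ab.1 ab.2 ∧
  (2 * ab.1 * ab.2) ^ 4 ≠ 0 ∧ (ab.1 ^ 2 - ab.2 ^ 2) ^ 4 ≠ 0 ∧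
  (2 * ab.1 * ab.2) ^ 4 ≠ (ab.1 ^ 2 - ab.2 ^ 2) ^ 4 ∧
  3 * e = g ^ 2 * ((2 * ab.1 * ab.2) ^ 4 + (ab.1 ^ 2 - ab.2 ^ 2) ^ 4) ∧
  3 * c.1 = -(g ^ 4 * (((2 * ab.1 * ab.2) ^ 4) ^ 2 -
    (2 * ab.1 * ab.2) ^ 4 * (ab.1 ^ 2 - ab.2 ^ 2) ^ 4 + ((ab.1 ^ 2 - ab.2 ^ 2) ^ 4) ^ 2)) ∧
  27 * c.2 = g ^ 6 * (((2 * ab.1 * ab.2) ^ 4 + (ab.1 ^ 2 - ab.2 ^ 2) ^ 4) *
    (2 * (2 * ab.1 * ab.2) ^ 4 - (ab.1 ^ 2 - ab.2 ^ 2) ^ 4) *
    ((2 * ab.1 * ab.2) ^ 4 - 2 * (ab.1 ^ 2 - ab.2 ^ 2) ^ 4))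

theorem core8 {A B : ℤ} (hD : 4 * A ^ 3 + 27 * B ^ 2 ≠ 0) (hT : HasT 8 (Sh A B)) :
    ∃ ab, Rel8 (A, B) ab := by
  obtain ⟨P, Q, hP, hQ, hPQ⟩ := hT
  obtain ⟨x1, y1, x, y, e1, e2, hy1, hxy1, hx1, hy, hxy, r1, r2, hne, h1⟩ :=
    eight_tors hP hQ hPQ
  -- third root
  have hs : e1 ^ 2 + e1 * e2 + e2 ^ 2 + A = 0 := by
    have : (e1 - e2) * (e1 ^ 2 + e1 * e2 + e2 ^ 2 + A) = 0 := by linear_combination r1 - r2
    exact (mul_eq_zero.mp this).resolve_left (sub_ne_zero.mpr hne)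
  have r3 : (-e1 - e2) ^ 3 + A * (-e1 - e2) + B = 0 := by
    linear_combination r1 + (-2 * e1 - e2) * hs
  have s1 := root_sq hy hxy r1 h1
  have s2 := root_sq hy hxy r2 h1
  have s3 := root_sq hy hxy r3 h1
  have t1 := root_sq hy1 hxy1 r1 hx1
  have t2 := root_sq hy1 hxy1 r2 hx1
  set m : ℚ := (x ^ 2 - 2 * e2 * x - A - 2 * e2 ^ 2) / (2 * y) with hm
  set n : ℚ := (x ^ 2 - 2 * (-e1 - e2) * x - A - 2 * (-e1 - e2) ^ 2) / (2 * y) with hn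
  set ρ1 : ℚ := (x1 ^ 2 - 2 * e1 * x1 - A - 2 * e1 ^ 2) / (2 * y1) with hρ1
  set ρ2 : ℚ := (x1 ^ 2 - 2 * e2 * x1 - A - 2 * e2 ^ 2) / (2 * y1) with hρ2
  have hnum : x ^ 2 - 2 * e1 * x - A - 2 * e1 ^ 2 = 0 := by
    rw [sub_self] at s1
    have h2 := pow_eq_zero_iff two_ne_zero |>.1 s1.symm
    rcases div_eq_zero_iff.1 h2 with h3 | h3
    · exact h3
    · exfalso
      exact hy (by linarith)
  clear_value m n ρ1 ρ2
  -- `(x - e1) ^ 2 = m ^ 2 n ^ 2`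
  have hxe : (ρ1 ^ 2) ^ 2 = m ^ 2 * n ^ 2 := by
    rw [← t1, ← s2, ← s3]
    linear_combination hnum + hs
  obtain ⟨E1, hE1⟩ := int_root r1
  obtain ⟨E2, hE2⟩ := int_root r2
  obtain ⟨m', hm'⟩ := int_sqrt (M := E1 - E2) (m := m) (by push_cast; rw [hE1, hE2]; exact s2)
  obtain ⟨n', hn'⟩ := int_sqrt (M := 2 * E1 + E2) (m := n) (by
    push_cast; rw [hE1, hE2, ← s3]; ring)
  -- integral relations
  have t1' : E1 - E2 = m' ^ 2 := by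
    have : ((E1 - E2 : ℤ) : ℚ) = ((m' ^ 2 : ℤ) : ℚ) := by
      push_cast; rw [hE1, hE2, hm']; exact s2
    exact_mod_cast this
  have t2' : 2 * E1 + E2 = n' ^ 2 := by
    have : ((2 * E1 + E2 : ℤ) : ℚ) = ((n' ^ 2 : ℤ) : ℚ) := by
      push_cast; rw [hE1, hE2, hn', ← s3]; ring
    exact_mod_cast this
  have t3 : E1 ^ 2 + E1 * E2 + E2 ^ 2 + A = 0 := by
    have : ((E1 ^ 2 + E1 * E2 + E2 ^ 2 + A : ℤ) : ℚ) = ((0 : ℤ) : ℚ) := by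
      push_cast; rw [hE1, hE2]; exact hs
    exact_mod_cast this
  have t4 : E1 ^ 3 + A * E1 + B = 0 := by
    have : ((E1 ^ 3 + A * E1 + B : ℤ) : ℚ) = ((0 : ℤ) : ℚ) := by
      push_cast; rw [hE1]; exact r1
    exact_mod_cast this
  have hA : A = -(E1 ^ 2 + E1 * E2 + E2 ^ 2) := by linarith
  have hB : B = E1 * E2 * (E1 + E2) := by
    rw [hA] at t4
    linear_combination t4
  have n12 : E1 ≠ E2 := by
    intro h
    apply hne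
    rw [← hE1, ← hE2, h]
  have n13 : 2 * E1 + E2 ≠ 0 := by
    intro h
    apply hD
    have : E2 = -2 * E1 := by linarith
    rw [hA, hB, this]
    ring
  have n23 : E1 + 2 * E2 ≠ 0 := by
    intro h
    apply hD
    have : E1 = -2 * E2 := by linarith
    rw [hA, hB, this]
    ring
  have hm0 : m' ≠ 0 := by
    rintro rfl
    apply n12; linarith
  have hn0 : n' ≠ 0 := by
    rintro rfl
    apply n13; linarith
  have hmn : m' ^ 2 ≠ n' ^ 2 := by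
    rw [← t1', ← t2']
    intro h
    apply n23; linarith
  -- the squares
  have hmp : 0 < |m'| := abs_pos.mpr hm0
  have hnp : 0 < |n'| := abs_pos.mpr hn0
  have q1 : ((|m'| * |n'| : ℤ) : ℚ) = ρ1 ^ 2 := by
    have h2 : (((|m'| * |n'| : ℤ) : ℚ)) ^ 2 = (ρ1 ^ 2) ^ 2 := by
      rw [hxe, ← hm', ← hn']
      push_cast
      rw [mul_pow, sq_abs, sq_abs]
    have h3 : (0 : ℚ) ≤ ((|m'| * |n'| : ℤ) : ℚ) := by
      exact_mod_cast (mul_pos hmp hnp).le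
    exact (pow_left_inj₀ h3 (sq_nonneg _) two_ne_zero).1 h2
  have q2 : ((|m'| * (|m'| + |n'|) : ℤ) : ℚ) = ρ2 ^ 2 := by
    have h2 : ρ2 ^ 2 = ρ1 ^ 2 + m ^ 2 := by
      rw [← t1, ← t2, ← s2]
      ring
    rw [h2, ← q1, ← hm']
    push_cast
    rw [mul_add, ← sq, sq_abs]
    ring
  obtain ⟨R1, hR1⟩ := int_sqrt q1
  obtain ⟨R2, hR2⟩ := int_sqrt q2
  have q1' : |m'| * |n'| = R1 ^ 2 := by
    have : ((|m'| * |n'| : ℤ) : ℚ) = ((R1 ^ 2 : ℤ) : ℚ) := by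
      rw [q1, ← hR1]; push_cast; rfl
    exact_mod_cast this
  have q2' : |m'| * (|m'| + |n'|) = R2 ^ 2 := by
    have : ((|m'| * (|m'| + |n'|) : ℤ) : ℚ) = ((R2 ^ 2 : ℤ) : ℚ) := by
      rw [q2, ← hR2]; push_cast; rfl
    exact_mod_cast this
  obtain ⟨g, a, b, hg, hab, hcase⟩ := nt hmp hnp q1' q2'
  -- the squares of `m'` and `n'`
  have hsq : (m' ^ 2 = g ^ 2 * (2 * a * b) ^ 4 ∧ n' ^ 2 = g ^ 2 * (a ^ 2 - b ^ 2) ^ 4) ∨
      (n' ^ 2 = g ^ 2 * (2 * a * b) ^ 4 ∧ m' ^ 2 = g ^ 2 * (a ^ 2 - b ^ 2) ^ 4) := by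
    rcases hcase with ⟨h2, h3⟩ | ⟨h2, h3⟩
    · left
      constructor
      · rw [← sq_abs m', h2]; ring
      · rw [← sq_abs n', h3]; ring
    · right
      constructor
      · rw [← sq_abs n', h3]; ring
      · rw [← sq_abs m', h2]; ring
  have u1 : 3 * E1 = m' ^ 2 + n' ^ 2 := by linarith
  have u2 : 3 * E2 = n' ^ 2 - 2 * m' ^ 2 := by linarith
  have hA3 : 3 * A = -(m' ^ 4 - m' ^ 2 * n' ^ 2 + n' ^ 4) := by
    have h9 : 3 * (3 * A) = 3 * (-(m' ^ 4 - m' ^ 2 * n' ^ 2 + n' ^ 4)) := by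
      have : 3 * (3 * A) = -((3 * E1) ^ 2 + (3 * E1) * (3 * E2) + (3 * E2) ^ 2) := by
        rw [hA]; ring
      rw [this, u1, u2]
      ring
    linarith
  have hB27 : 27 * B = (m' ^ 2 + n' ^ 2) * (2 * m' ^ 2 - n' ^ 2) * (m' ^ 2 - 2 * n' ^ 2) := by
    have : 27 * B = (3 * E1) * (3 * E2) * (3 * E1 + 3 * E2) := by rw [hB]; ring
    rw [this, u1, u2]
    ring
  refine ⟨(a, b), g, E1, hg, hab, ?_⟩
  change (2 * a * b) ^ 4 ≠ 0 ∧ (a ^ 2 - b ^ 2) ^ 4 ≠ 0 ∧ (2 * a * b) ^ 4 ≠ (a ^ 2 - b ^ 2) ^ 4 ∧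
    3 * E1 = g ^ 2 * ((2 * a * b) ^ 4 + (a ^ 2 - b ^ 2) ^ 4) ∧
    3 * A = -(g ^ 4 * (((2 * a * b) ^ 4) ^ 2 - (2 * a * b) ^ 4 * (a ^ 2 - b ^ 2) ^ 4 +
      ((a ^ 2 - b ^ 2) ^ 4) ^ 2)) ∧
    27 * B = g ^ 6 * (((2 * a * b) ^ 4 + (a ^ 2 - b ^ 2) ^ 4) *
      (2 * (2 * a * b) ^ 4 - (a ^ 2 - b ^ 2) ^ 4) * ((2 * a * b) ^ 4 - 2 * (a ^ 2 - b ^ 2) ^ 4))
  generalize (2 * a * b) ^ 4 = M at hsq ⊢
  generalize (a ^ 2 - b ^ 2) ^ 4 = N at hsq ⊢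
  have hm4 : m' ^ 4 = (m' ^ 2) ^ 2 := by ring
  have hn4 : n' ^ 4 = (n' ^ 2) ^ 2 := by ring
  have hm2 : m' ^ 2 ≠ 0 := pow_ne_zero 2 hm0
  have hn2 : n' ^ 2 ≠ 0 := pow_ne_zero 2 hn0
  rw [u1, hA3, hB27, hm4, hn4]
  rcases hsq with ⟨h2, h3⟩ | ⟨h3, h2⟩
  · rw [h2] at hm2 hmn
    rw [h3] at hn2 hmn
    rw [h2, h3]
    refine ⟨right_ne_zero_of_mul hm2, right_ne_zero_of_mul hn2, fun h => hmn (by rw [h]), ?_, ?_, ?_⟩
    · ring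
    · ring
    · ring
  · rw [h2] at hm2 hmn
    rw [h3] at hn2 hmn
    rw [h2, h3]
    refine ⟨right_ne_zero_of_mul hn2, right_ne_zero_of_mul hm2, fun h => hmn (by rw [h]), ?_, ?_, ?_⟩
    · ring
    · ring
    · ring

open Classical in
/-- the parameters -/
noncomputable def F8p (c : ℤ × ℤ) : ℤ × ℤ := if h : ∃ ab, Rel8 c ab then h.choose else (0, 0)

theorem F8p_rel {c : ℤ × ℤ} (h : ∃ ab, Rel8 c ab) : Rel8 c (F8p c) := by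
  unfold F8p
  rw [dif_pos h]
  exact h.choose_spec

theorem rel8_unique {c c' ab : ℤ × ℤ} (h : Rel8 c ab) (h' : Rel8 c' ab)
    (hmin : ∀ p : ℕ, p.Prime → ¬ ((p : ℤ) ^ 4 ∣ c.1 ∧ (p : ℤ) ^ 6 ∣ c.2))
    (hmin' : ∀ p : ℕ, p.Prime → ¬ ((p : ℤ) ^ 4 ∣ c'.1 ∧ (p : ℤ) ^ 6 ∣ c'.2)) : c = c' := by
  obtain ⟨g, e, hg, -, -, -, -, -, hA, hB⟩ := h
  obtain ⟨g', e', hg', -, -, -, -, -, hA', hB'⟩ := h'
  have h1 := scale_one hg hA hB hA' hB' hmin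
  have h2 := scale_one hg' hA' hB' hA hB hmin'
  have h3 : g = g' := Int.dvd_antisymm hg.le hg'.le h1 h2
  subst h3
  apply Prod.ext
  · linarith
  · linarith

theorem rel8_bound {A B : ℤ} {ab : ℤ × ℤ} (h : Rel8 (A, B) ab) {H : ℕ} (hH : 4 * |A| ^ 3 ≤ H) :
    ab.1.natAbs ^ 48 ≤ 27648 * H ∧ ab.2.natAbs ^ 48 ≤ 27648 * H := by
  obtain ⟨a, b⟩ := ab
  obtain ⟨g, e, hg, -, -, -, -, -, hA, -⟩ := h
  change 3 * A = -(g ^ 4 * (((2 * a * b) ^ 4) ^ 2 - (2 * a * b) ^ 4 * (a ^ 2 - b ^ 2) ^ 4 +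
      ((a ^ 2 - b ^ 2) ^ 4) ^ 2)) at hA
  obtain ⟨M, hM⟩ : ∃ M, M = (2 * a * b) ^ 4 := ⟨_, rfl⟩
  obtain ⟨N, hN⟩ : ∃ N, N = (a ^ 2 - b ^ 2) ^ 4 := ⟨_, rfl⟩
  have hMN : M ^ 2 + N ^ 2 ≤ 2 * (M ^ 2 - M * N + N ^ 2) := by nlinarith [sq_nonneg (M - N)]
  have hP : 0 ≤ M ^ 2 - M * N + N ^ 2 := by nlinarith [sq_nonneg M, sq_nonneg N]
  rw [← hM, ← hN] at hA
  have hg1 : 1 ≤ g ^ 4 := one_le_pow₀ (by omega)
  have h1 : M ^ 2 - M * N + N ^ 2 ≤ 3 * |A| := by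
    have e1 : 3 * |A| = g ^ 4 * (M ^ 2 - M * N + N ^ 2) := by
      have : |3 * A| = |-(g ^ 4 * (M ^ 2 - M * N + N ^ 2))| := by rw [hA]
      rw [abs_mul, abs_neg, abs_of_nonneg (mul_nonneg (by positivity) hP)] at this
      simpa using this
    rw [e1]
    nlinarith
  have h2 : M ^ 2 + N ^ 2 ≤ 6 * |A| := by linarith
  -- `(a ^ 2 + b ^ 2) ^ 8 ≤ 8 (M ^ 2 + N ^ 2)`
  have h3 : (a ^ 2 + b ^ 2) ^ 8 ≤ 8 * (M ^ 2 + N ^ 2) := by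
    obtain ⟨U, hU⟩ : ∃ U, U = (2 * a * b) ^ 2 := ⟨_, rfl⟩
    obtain ⟨V, hV⟩ : ∃ V, V = (a ^ 2 - b ^ 2) ^ 2 := ⟨_, rfl⟩
    have e1 : (a ^ 2 + b ^ 2) ^ 8 = (U + V) ^ 4 := by rw [hU, hV]; ring
    have e2 : M ^ 2 + N ^ 2 = U ^ 4 + V ^ 4 := by rw [hM, hN, hU, hV]; ring
    rw [e1, e2]
    have e3 : (U + V) ^ 2 ≤ 2 * (U ^ 2 + V ^ 2) := by nlinarith [sq_nonneg (U - V)]
    have e4 : ((U + V) ^ 2) ^ 2 ≤ (2 * (U ^ 2 + V ^ 2)) ^ 2 :=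
      pow_le_pow_left₀ (sq_nonneg _) e3 2
    have e5 : (U ^ 2 + V ^ 2) ^ 2 ≤ 2 * (U ^ 4 + V ^ 4) := by nlinarith [sq_nonneg (U ^ 2 - V ^ 2)]
    calc (U + V) ^ 4 = ((U + V) ^ 2) ^ 2 := by ring
      _ ≤ (2 * (U ^ 2 + V ^ 2)) ^ 2 := e4
      _ = 4 * (U ^ 2 + V ^ 2) ^ 2 := by ring
      _ ≤ 8 * (U ^ 4 + V ^ 4) := by linarith
  have h4 : (a ^ 2 + b ^ 2) ^ 8 ≤ 48 * |A| := by linarith
  have key : ∀ x : ℤ, x ^ 2 ≤ a ^ 2 + b ^ 2 → x.natAbs ^ 48 ≤ 27648 * H := by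
    intro x hx
    have h5 : (x ^ 2) ^ 8 ≤ 48 * |A| := (pow_le_pow_left₀ (sq_nonneg x) hx 8).trans h4
    have h6 : ((x ^ 2) ^ 8) ^ 3 ≤ (48 * |A|) ^ 3 := pow_le_pow_left₀ (by positivity) h5 3
    have h7 : ((x.natAbs ^ 48 : ℕ) : ℤ) ≤ ((27648 * H : ℕ) : ℤ) := by
      have e2 : ((x.natAbs ^ 48 : ℕ) : ℤ) = ((x ^ 2) ^ 8) ^ 3 := by
        push_cast
        rw [← pow_mul, ← pow_mul]
        have : |x| ^ 48 = x ^ 48 := Even.pow_abs (by decide) x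
        exact this
      rw [e2]
      push_cast
      have e3 : (48 * |A|) ^ 3 = 27648 * (4 * |A| ^ 3) := by ring
      rw [e3] at h6
      linarith
    exact_mod_cast h7
  have ha2 : 0 ≤ a ^ 2 := sq_nonneg a
  have hb2 : 0 ≤ b ^ 2 := sq_nonneg b
  exact ⟨key a (by linarith), key b (by linarith)⟩

/-- the curve is isomorphic to `y² = x (x + M) (x + N)` -/
theorem fin_eq8 {A B M N g e : ℤ} (hg : 0 < g) (he : 3 * e = g ^ 2 * (M + N))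
    (hA : 3 * A = -(g ^ 4 * (M ^ 2 - M * N + N ^ 2)))
    (hB : 27 * B = g ^ 6 * ((M + N) * (2 * M - N) * (M - 2 * N))) :
    Module.finrank ℤ (Sh A B).toAffine.Point =
      Module.finrank ℤ (EAB (-M) (-N)).toAffine.Point := by
  have hgq : (g : ℚ) ≠ 0 := by exact_mod_cast hg.ne'
  have heq : (e : ℚ) = (g : ℚ) ^ 2 * ((M : ℚ) + (N : ℚ)) / 3 := by
    have : (3 : ℚ) * e = (g : ℚ) ^ 2 * ((M : ℚ) + (N : ℚ)) := by exact_mod_cast he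
    linarith
  have hAq : (A : ℚ) = -((g : ℚ) ^ 4 * ((M : ℚ) ^ 2 - (M : ℚ) * (N : ℚ) + (N : ℚ) ^ 2)) / 3 := by
    have : (3 : ℚ) * A = -((g : ℚ) ^ 4 * ((M : ℚ) ^ 2 - (M : ℚ) * (N : ℚ) + (N : ℚ) ^ 2)) := by
      exact_mod_cast hA
    linarith
  have hBq : (B : ℚ) = (g : ℚ) ^ 6 * (((M : ℚ) + (N : ℚ)) * (2 * (M : ℚ) - (N : ℚ)) *
      ((M : ℚ) - 2 * (N : ℚ))) / 27 := by
    have : (27 : ℚ) * B = (g : ℚ) ^ 6 * (((M : ℚ) + (N : ℚ)) * (2 * (M : ℚ) - (N : ℚ)) *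
        ((M : ℚ) - 2 * (N : ℚ))) := by exact_mod_cast hB
    linarith
  obtain ⟨φ⟩ := Pool.Agent.W261.RT.iso 0 A B e g hgq
  have hW : (⟨0, ((0 : ℚ) + 3 * e) / (g : ℚ) ^ 2, 0,
      ((A : ℚ) + 2 * e * 0 + 3 * (e : ℚ) ^ 2) / (g : ℚ) ^ 4,
      ((B : ℚ) + e * A + (e : ℚ) ^ 2 * 0 + (e : ℚ) ^ 3) / (g : ℚ) ^ 6⟩ : WeierstrassCurve ℚ)
      = EAB (-M) (-N) := by
    unfold EAB
    simp only [WeierstrassCurve.mk.injEq, true_and]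
    refine ⟨?_, ?_, ?_⟩
    · rw [heq]; push_cast; field_simp; ring
    · rw [heq, hAq]; push_cast; field_simp; ring
    · rw [heq, hAq, hBq]; field_simp; ring
  rw [hW] at φ
  exact LinearEquiv.finrank_eq φ.toIntLinearEquiv

theorem par : Pool.Agent.Y723.Z8.S_PAR := by
  refine ⟨27648, F8p, fun H => ⟨?_, ?_⟩⟩
  · intro c hc c' hc' hcc
    rw [Finset.mem_coe] at hc hc'
    simp only [Cv, Finset.mem_filter] at hc hc'
    obtain ⟨-, hD, -, -, hmin, hT⟩ := hc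
    obtain ⟨-, hD', -, -, hmin', hT'⟩ := hc'
    have r := F8p_rel (core8 hD hT)
    have r' := F8p_rel (core8 hD' hT')
    change Rel8 c (F8p c) at r
    change Rel8 c' (F8p c') at r'
    rw [← hcc] at r'
    exact rel8_unique r r' hmin hmin'
  · intro c hc
    simp only [Cv, Finset.mem_filter] at hc
    obtain ⟨-, hD, hH, -, hmin, hT⟩ := hc
    have r := F8p_rel (core8 hD hT)
    change Rel8 c (F8p c) at r
    obtain ⟨hb1, hb2⟩ := rel8_bound (A := c.1) (B := c.2) r hH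
    set ab := F8p c with hab
    clear_value ab
    obtain ⟨A, B⟩ := c
    obtain ⟨a, b⟩ := ab
    obtain ⟨g, e, hg, hco, hM0, hN0, hne, he, hA, hB⟩ := r
    exact ⟨hco, hM0, hN0, hne, hb1, hb2, fin_eq8 hg he hA hB⟩

end Pool.Agent.Y87.Z8
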